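import Mathlib

namespace Pool.Agent.Results.MP_71d0e6_al.SmoothFails

open FirstOrder FirstOrder.Language

theorem exists_levels {V : Type} [Finite V] (E : V → V → Prop)
    (h : ∀ v, ∃ d : ℕ, 2 ≤ d ∧ ∀ (k : ℕ) (w : ℕ → V), w 0 = v → w k = v →
      (∀ j < k, E (w j) (w (j + 1))) → d ∣ k) :
    ∃ (D : V → ℕ) (c : ∀ v, ZMod (D v + 2)) (l : V → ℕ), ∀ u v, E u v → l u < l v ∨
      (l u = l v ∧ (⟨D v, c v⟩ : Σ d, ZMod (d + 2)) = ⟨D u, c u + 1⟩) := by
  let P : ℕ → V → V → Prop := fun k u v =>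
    ∃ w : ℕ → V, w 0 = u ∧ w k = v ∧ ∀ j < k, E (w j) (w (j + 1))
  have P0 : ∀ u, P 0 u u := fun u => ⟨fun _ => u, rfl, rfl, fun j hj => absurd hj (by omega)⟩
  have P1 : ∀ u v, E u v → P 1 u v := fun u v huv =>
    ⟨fun j => if j = 0 then u else v, rfl, rfl, fun j hj => by
      obtain rfl : j = 0 := by omega
      exact huv⟩
  have Pa : ∀ {k m u v z}, P k u v → P m v z → P (k + m) u z := by
    rintro k m u v z ⟨w, rfl, rfl, hw⟩ ⟨w', h0, rfl, hw'⟩
    refine ⟨fun j => if j < k then w j else w' (j - k), ?_, by simp, fun j hj => ?_⟩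
    · rcases Nat.eq_zero_or_pos k with rfl | hk
      · simpa using h0
      · simp [hk]
    · by_cases h1 : j + 1 < k
      · simpa only [if_pos h1, if_pos (show j < k by omega)] using hw j (by omega)
      · by_cases h2 : j < k
        · obtain rfl : k = j + 1 := by omega
          simpa only [if_neg h1, if_pos h2, Nat.sub_self, h0] using hw j h2
        · simp only [if_neg h1, if_neg h2, show j + 1 - k = j - k + 1 by omega]
          exact hw' _ (by omega)
  let S : Setoid V := ⟨fun u v => (∃ k, P k u v) ∧ ∃ k, P k v u,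
    fun u => ⟨⟨0, P0 u⟩, 0, P0 u⟩, fun h => h.symm,
    fun ⟨⟨_, a⟩, _, b⟩ ⟨⟨_, c⟩, _, d⟩ => ⟨⟨_, Pa a c⟩, _, Pa d b⟩⟩
  let ρ : V → V := fun v => (Quotient.mk S v).out
  have hρ : ∀ v, S (ρ v) v := fun v => Quotient.mk_out (s := S) v
  choose len hlen using fun v => (hρ v).1
  choose d hd hdv using h
  let R : V → Set V := fun v => {u | ∃ k, P k u v}
  refine ⟨fun v => d (ρ v) - 2, fun v => len v, fun v => (R v).ncard, fun u v huv => ?_⟩
  have hsub : R u ⊆ R v := fun z ⟨k, hk⟩ => ⟨_, Pa hk (P1 u v huv)⟩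
  rcases (Set.ncard_le_ncard hsub).lt_or_eq with h1 | h1
  · exact Or.inl h1
  refine Or.inr ⟨h1, ?_⟩
  have h2 : v ∈ R u := Set.eq_of_subset_of_ncard_le hsub h1.ge ▸ (⟨0, P0 v⟩ : v ∈ R v)
  have h3 : ρ u = ρ v := congrArg Quotient.out (Quotient.sound (s := S) ⟨⟨1, P1 u v huv⟩, h2⟩)
  obtain ⟨m, hm⟩ := (hρ v).2
  obtain ⟨w, a1, a2, a3⟩ := Pa (hlen v) hm
  obtain ⟨w', b1, b2, b3⟩ := Pa (Pa (h3 ▸ hlen u) (P1 u v huv)) hm
  have e1 := hdv _ _ w a1 a2 a3
  have e2 := hdv _ _ w' b1 b2 b3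
  have e3 : d (ρ v) - 2 + 2 = d (ρ v) := Nat.sub_add_cancel (hd _)
  rw [← e3, ← ZMod.natCast_eq_zero_iff] at e1 e2
  push_cast at e1 e2
  show (fun r => (⟨d r - 2, (len v : ZMod _)⟩ : Σ d, ZMod (d + 2))) (ρ v) =
    (fun r => (⟨d r - 2, (len u : ZMod _) + 1⟩ : Σ d, ZMod (d + 2))) (ρ u)
  rw [h3]
  exact congrArg _ (by linear_combination e1 - e2)

/-- One idempotent algebra with a 4-ary Siggers term and a Hobby-McKenzie term that satisfies no
one-equality condition whose digraph has only strong components of period different from one. -/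
theorem result : ∃ (L : FirstOrder.Language.{0, 0}) (A : Type) (_ : L.Structure A), Nonempty A ∧
    (∀ (n : ℕ) (f : L.Functions n) (x : A), Structure.funMap f (fun _ => x) = x) ∧
    (∃ s : L.Term (Fin 4), ∀ r a e : A, s.realize ![r, a, r, e] = s.realize ![a, r, e, a]) ∧
    (∃ t : L.Term (Fin 6), ∀ a b : A, t.realize ![b, b, b, a, b, b] = b ∧
      t.realize ![b, b, b, b, a, b] = b ∧ t.realize ![b, b, b, b, b, a] = b ∧
      t.realize ![a, b, b, b, b, b] = t.realize ![b, b, b, a, a, a] ∧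
      t.realize ![b, a, b, b, b, b] = t.realize ![b, b, b, a, a, a] ∧
      t.realize ![b, b, a, b, b, b] = t.realize ![b, b, b, a, a, a]) ∧
    ∀ (V ι : Type) [Finite V] (src tgt : ι → V),
      (∀ v, ∃ d : ℕ, 2 ≤ d ∧ ∀ (k : ℕ) (w : ℕ → V), w 0 = v → w k = v →
        (∀ j < k, ∃ i, src i = w j ∧ tgt i = w (j + 1)) → d ∣ k) →
      ¬ ∃ t : L.Term ι, ∀ x : V → A, t.realize (x ∘ src) = t.realize (x ∘ tgt) := by
  classical
  let C := Σ d : ℕ, ZMod (d + 2)
  let σ : C → C := fun c => ⟨c.1, c.2 + 1⟩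
  have hσ : Function.Injective σ := by
    rintro ⟨d, x⟩ ⟨d', x'⟩ h
    obtain rfl : d = d' := congrArg Sigma.fst h
    exact congrArg _ (add_left_injective 1 (sigma_mk_injective (β := fun d => ZMod (d + 2)) h))
  have hfix : ∀ c, σ c ≠ c := by
    rintro ⟨d, x⟩ h
    have : Fact (1 < d + 2) := ⟨by omega⟩
    have h1 : x + 1 = x := sigma_mk_injective (β := fun d => ZMod (d + 2)) h
    exact one_ne_zero (add_eq_left.1 h1)
  let H : C × ℚ → C × ℚ → Prop := fun p q => p.2 < q.2 ∨ (p.2 = q.2 ∧ q.1 = σ p.1)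
  let L : FirstOrder.Language.{0, 0} := ⟨fun n => {f : (Fin n → C × ℚ) → C × ℚ //
    (∀ x, f (fun _ => x) = x) ∧ ∀ p q, (∀ i, H (p i) (q i)) → H (f p) (f q)}, fun _ => Empty⟩
  let inst : L.Structure (C × ℚ) := ⟨fun f => f.1, fun r => r.elim⟩
  let s : (Fin 4 → C × ℚ) → C × ℚ := fun p =>
    (if (p 0).1 = (p 2).1 then (p 3).1 else (p 2).1,
      ((p 0).2 + 2 * (p 1).2 + (p 2).2 + (p 3).2) / 5)
  have hs1 : ∀ x, s (fun _ => x) = x := fun x => Prod.ext (if_pos rfl) (by simp only [s]; ring)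
  have hs2 : ∀ p q, (∀ i, H (p i) (q i)) → H (s p) (s q) := by
    intro p q h
    have hle : ∀ i, (p i).2 ≤ (q i).2 := fun i => (h i).elim le_of_lt fun h => h.1.le
    have a0 := hle 0
    have a1 := hle 1
    have a2 := hle 2
    have a3 := hle 3
    rcases (show (s p).2 ≤ (s q).2 by simp only [s]; linarith).lt_or_eq with h1 | h1
    · exact Or.inl h1
    refine Or.inr ⟨h1, ?_⟩
    simp only [s] at h1
    have b0 := ((h 0).resolve_left fun h => by linarith).2
    have b2 := ((h 2).resolve_left fun h => by linarith).2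
    have b3 := ((h 3).resolve_left fun h => by linarith).2
    simp only [s, b0, b2, b3, hσ.eq_iff, apply_ite σ]
  let g : (Fin 6 → C × ℚ) → C × ℚ := fun p =>
    (if (p 0).1 = (p 1).1 then (p 0).1 else (p 2).1, ((p 0).2 + (p 1).2 + (p 2).2 +
      max (min (p 3).2 (p 4).2) (min (max (p 3).2 (p 4).2) (p 5).2)) / 4)
  have hg1 : ∀ x, g (fun _ => x) = x := fun x =>
    Prod.ext (if_pos rfl) (by simp only [g, min_self, max_self]; ring)
  have hg2 : ∀ p q, (∀ i, H (p i) (q i)) → H (g p) (g q) := by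
    intro p q h
    have hle : ∀ i, (p i).2 ≤ (q i).2 := fun i => (h i).elim le_of_lt fun h => h.1.le
    have a0 := hle 0
    have a1 := hle 1
    have a2 := hle 2
    have a3 := max_le_max (min_le_min (hle 3) (hle 4))
      (min_le_min (max_le_max (hle 3) (hle 4)) (hle 5))
    rcases (show (g p).2 ≤ (g q).2 by simp only [g]; linarith).lt_or_eq with h1 | h1
    · exact Or.inl h1
    refine Or.inr ⟨h1, ?_⟩
    simp only [g] at h1
    have b0 := ((h 0).resolve_left fun h => by linarith).2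
    have b1 := ((h 1).resolve_left fun h => by linarith).2
    have b2 := ((h 2).resolve_left fun h => by linarith).2
    simp only [g, b0, b1, b2, hσ.eq_iff, apply_ite σ]
  have hd : ∀ a b : C, (if a = b then a else b) = b := fun a b => by
    split_ifs with h
    exacts [h, rfl]
  refine ⟨L, C × ℚ, inst, ⟨(⟨0, 0⟩, 0)⟩, fun n f => f.2.1,
    ⟨Term.func (l := 4) ⟨s, hs1, hs2⟩ Term.var, fun r a e => Prod.ext ?_ ?_⟩,
    ⟨Term.func (l := 6) ⟨g, hg1, hg2⟩ Term.var, fun a b => ?_⟩, ?_⟩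
  · show (if r.1 = r.1 then e.1 else r.1) = if a.1 = e.1 then a.1 else e.1
    rw [if_pos rfl]
    split_ifs with h
    exacts [h.symm, rfl]
  · show (r.2 + 2 * a.2 + r.2 + e.2) / 5 = (a.2 + 2 * r.2 + e.2 + a.2) / 5
    ring
  · have e : ∀ x₀ x₁ x₂ x₃ x₄ x₅ : C × ℚ, (Term.func (l := 6) ⟨g, hg1, hg2⟩ Term.var :
        L.Term (Fin 6)).realize ![x₀, x₁, x₂, x₃, x₄, x₅] =
        (if x₀.1 = x₁.1 then x₀.1 else x₂.1, (x₀.2 + x₁.2 + x₂.2 +
          max (min x₃.2 x₄.2) (min (max x₃.2 x₄.2) x₅.2)) / 4) := fun _ _ _ _ _ _ => rfl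
    simp only [e, if_true, hd, ite_self, min_self, max_self, Prod.ext_iff, true_and]
    rcases le_total a.2 b.2 with h | h <;>
      simp only [min_eq_left h, min_eq_right h, max_eq_left h, max_eq_right h, min_self,
        max_self] <;> refine ⟨?_, ?_, ?_, ?_, ?_, ?_⟩ <;> ring
  rintro V ι _ src tgt hG ⟨t, ht⟩
  obtain ⟨D, c, l, hl⟩ := exists_levels (fun u v => ∃ i, src i = u ∧ tgt i = v) hG
  let x : V → C × ℚ := fun v => (⟨D v, c v⟩, l v)
  have key : ∀ t : L.Term ι, H (t.realize (x ∘ src)) (t.realize (x ∘ tgt)) := by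
    intro t
    induction t with
    | var i =>
      exact (hl _ _ ⟨i, rfl, rfl⟩).imp (fun h => Nat.cast_lt.2 h)
        fun h => ⟨congrArg Nat.cast h.1, h.2⟩
    | func f ts ih => exact f.2.2 _ _ ih
  have := key t
  rw [ht x] at this
  exact this.elim (lt_irrefl _) fun h => hfix _ h.2.symm

end Pool.Agent.Results.MP_71d0e6_al.SmoothFails
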